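import Pool.Agent.V5helper35.CA.Stm1

/-!
# Project CA, job CHM1: Chevalley's theorem for commuting integer matrices from its semisimple and its
unipotent part
-/

set_option autoImplicit false

namespace Pool.Agent.V5helper6.CA

open Pool.Agent.V5helper35.CA

/-- subgroups of finitely generated commutative groups are finitely generated -/
theorem fg_sub {A : Type} [CommGroup A] [hA : Group.FG A] (H : Subgroup A) : Group.FG H := by
  have h1 : AddGroup.FG (Additive A) := GroupFG.iff_add_fg.1 hA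
  have h2 : Module.Finite ℤ (Additive A) := Module.Finite.iff_addGroup_fg.2 h1
  have h3 : (AddSubgroup.toIntSubmodule (Subgroup.toAddSubgroup H)).FG :=
    IsNoetherian.noetherian _
  rw [Submodule.fg_iff_addSubgroup_fg] at h3
  have h4 : (Subgroup.toAddSubgroup H).FG := h3
  have h5 : H.FG := (Subgroup.fg_iff_add_fg H).2 h4
  exact (Group.fg_iff_subgroup_fg H).2 h5

section

variable {A : Type} [CommGroup A] {n : ℕ} (θ : A →* Matrix (Fin n) (Fin n) ℤ)

theorem th_comm (a b : A) : Commute (θ a) (θ b) := by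
  change θ a * θ b = θ b * θ a
  rw [← map_mul, ← map_mul, mul_comm]

theorem th_comm1 (a b : A) : Commute (θ a - 1) (θ b - 1) :=
  ((th_comm θ a b).sub_left (Commute.one_left _)).sub_right
    ((Commute.one_right _))

/-- the unipotent elements -/
def uni : Subgroup A where
  carrier := {a | IsNilpotent (θ a - 1)}
  one_mem' := by
    change IsNilpotent (θ 1 - 1)
    rw [map_one, sub_self]
    exact IsNilpotent.zero
  mul_mem' := by
    intro a b ha hb
    change IsNilpotent (θ (a * b) - 1)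
    have e : θ (a * b) - 1 = θ a * (θ b - 1) + (θ a - 1) := by
      rw [map_mul, mul_sub, mul_one]; abel
    rw [e]
    have hc : Commute (θ a) (θ b - 1) := (th_comm θ a b).sub_right (Commute.one_right _)
    refine Commute.isNilpotent_add ?_ (hc.isNilpotent_mul_left hb) ha
    exact Commute.mul_left ((Commute.refl _).sub_right (Commute.one_right _)) (th_comm1 θ b a)
  inv_mem' := by
    intro a ha
    change IsNilpotent (θ a⁻¹ - 1)
    have e : θ a⁻¹ - 1 = -(θ a⁻¹ * (θ a - 1)) := by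
      rw [mul_sub, mul_one, ← map_mul, inv_mul_cancel, map_one]; abel
    rw [e]
    have hc : Commute (θ a⁻¹) (θ a - 1) := (th_comm θ a⁻¹ a).sub_right (Commute.one_right _)
    exact (hc.isNilpotent_mul_left ha).neg

/-- reduction modulo `N` -/
def red (N : ℕ) : A →* Matrix (Fin n) (Fin n) (ZMod N) :=
  ((Int.castRingHom (ZMod N)).mapMatrix : Matrix (Fin n) (Fin n) ℤ →+*
    Matrix (Fin n) (Fin n) (ZMod N)).toMonoidHom.comp θ

theorem red_eq_one (N : ℕ) (a : A) : red θ N a = 1 ↔ ∀ i j, (N : ℤ) ∣ (θ a - 1) i j := by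
  have h1 : red θ N a - 1 = (θ a - 1).map (Int.castRingHom (ZMod N)) := by
    have : (θ a - 1).map (Int.castRingHom (ZMod N)) =
        (Int.castRingHom (ZMod N)).mapMatrix (θ a - 1) := rfl
    rw [this, map_sub, map_one]
    rfl
  rw [← sub_eq_zero, h1, ← Matrix.ext_iff]
  refine forall_congr' fun i => forall_congr' fun j => ?_
  rw [Matrix.map_apply, Matrix.zero_apply]
  exact ZMod.intCast_zmod_eq_zero_iff_dvd _ _

theorem exists_exp (N : ℕ) (hN : 0 < N) : ∃ k : ℕ, 0 < k ∧ ∀ a : A, red θ N a ^ k = 1 := by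
  have : NeZero N := ⟨hN.ne'⟩
  refine ⟨Nat.card (Matrix (Fin n) (Fin n) (ZMod N))ˣ, Nat.card_pos, fun a => ?_⟩
  have h : (MonoidHom.toHomUnits (red θ N) a) ^
      Nat.card (Matrix (Fin n) (Fin n) (ZMod N))ˣ = 1 := pow_card_eq_one'
  have h2 := congrArg Units.val h
  rw [Units.val_pow_eq_pow_val, MonoidHom.coe_toHomUnits, Units.val_one] at h2
  exact h2

end

theorem t_CHM1 : S_CHM1 := by
  intro hSS hUNI A _ _ n θ m hm
  have hfg : Group.FG (uni θ) := fg_sub _
  obtain ⟨N₁, hN₁, h₁⟩ := hUNI (uni θ) n (θ.comp (uni θ).subtype) (fun a => a.2) m hm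
  obtain ⟨k, hk, hk1⟩ := exists_exp θ N₁ hN₁
  obtain ⟨N₂, hN₂, h₂⟩ := hSS A n θ (m * k) (Nat.mul_pos hm hk)
  refine ⟨N₁ * N₂, Nat.mul_pos hN₁ hN₂, fun a ha => ?_⟩
  have ha1 : ∀ i j, (N₁ : ℤ) ∣ (θ a - 1) i j := fun i j =>
    (Dvd.intro (N₂ : ℤ) (by push_cast; rfl)).trans (ha i j)
  have ha2 : ∀ i j, (N₂ : ℤ) ∣ (θ a - 1) i j := fun i j =>
    (Dvd.intro_left (N₁ : ℤ) (by push_cast; rfl)).trans (ha i j)
  obtain ⟨b, c, hbc, hc⟩ := h₂ a ha2
  have hra : red θ N₁ a = 1 := (red_eq_one θ N₁ a).2 ha1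
  have hrc : red θ N₁ c = 1 := by
    rw [hbc, map_mul, map_pow, mul_comm m k, pow_mul, hk1, one_pow, one_mul] at hra
    exact hra
  obtain ⟨d, hd⟩ := h₁ ⟨c, hc⟩ ((red_eq_one θ N₁ c).1 hrc)
  have hd' : θ c = θ (d : A) ^ m := hd
  refine ⟨b ^ k * d, ?_⟩
  rw [hbc, map_mul, hd', map_mul, (th_comm θ (b ^ k) d).mul_pow, ← map_pow θ (b ^ k), ← pow_mul,
    mul_comm k m]

end Pool.Agent.V5helper6.CA
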